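import Pool.Agent.R441.Num

/-!
Questions 1 and 2 (cubed sums of `T_k(18,49)` and of `T_k(10,49)`), stated for every prime `p > 3`,
both fail for `p = 7`.
-/

set_option autoImplicit false

namespace Pool.Agent.Results.MP_f96d9d_nt.SevenFails

open Pool.Agent.R441 (CongMod not_congMod)

/-- `T_n(b,c) = ∑_j binom(n,2j) binom(2j,j) c^j b^(n-2j)` -/
def T (b c : ℤ) (n : ℕ) : ℤ :=
  ∑ j ∈ Finset.range (n / 2 + 1),
    (n.choose (2 * j) : ℤ) * ((2 * j).choose j : ℤ) * c ^ j * b ^ (n - 2 * j)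

/-- `A_1(p) = ∑_{k<p} T_k(18,49)³ / 512^k` -/
def A1 (p : ℕ) : ℚ := ∑ k ∈ Finset.range p, ((T 18 49 k : ℤ) : ℚ) ^ 3 / 512 ^ k

/-- `A_2(p) = ∑_{k<p} T_k(18,49)³ / 4096^k` -/
def A2 (p : ℕ) : ℚ := ∑ k ∈ Finset.range p, ((T 18 49 k : ℤ) : ℚ) ^ 3 / 4096 ^ k

/-- `B_1(p) = ∑_{k<p} T_k(10,49)³ / (-512)^k` -/
def B1 (p : ℕ) : ℚ := ∑ k ∈ Finset.range p, ((T 10 49 k : ℤ) : ℚ) ^ 3 / (-512) ^ k

/-- `B_2(p) = ∑_{k<p} T_k(10,49)³ / 1728^k` -/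
def B2 (p : ℕ) : ℚ := ∑ k ∈ Finset.range p, ((T 10 49 k : ℤ) : ℚ) ^ 3 / 1728 ^ k

/-- The congruences of Question 1 for the prime `p` -/
def QOne (p : ℕ) : Prop :=
  CongMod p 2 (jacobiSym 2 p * A1 p) (A2 p) ∧
  (∀ x y : ℤ, p % 4 = 1 → Odd x → Even y → (p : ℤ) = x ^ 2 + y ^ 2 →
    CongMod p 2 (A2 p) (4 * x ^ 2 - 2 * p)) ∧
  (p % 4 = 3 → CongMod p 2 (A2 p) 0)

/-- The congruences of Question 2 for the prime `p` -/
def QTwo (p : ℕ) : Prop :=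
  CongMod p 2 (jacobiSym (-1) p * B1 p) (jacobiSym 6 p * B2 p) ∧
  (∀ x y : ℤ, (p % 8 = 1 ∨ p % 8 = 3) → (p : ℤ) = x ^ 2 + 2 * y ^ 2 →
    CongMod p 2 (jacobiSym 6 p * B2 p) (4 * x ^ 2 - 2 * p)) ∧
  ((p % 8 = 5 ∨ p % 8 = 7) → CongMod p 2 (jacobiSym 6 p * B2 p) 0)

/-- There is a prime `p > 3` (namely `p = 7`) for which the congruences of Question 1 fail and
the congruences of Question 2 fail. -/
theorem result : ∃ p : ℕ, p = 7 ∧ p.Prime ∧ 3 < p ∧ ¬ QOne p ∧ ¬ QTwo p := by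
  have jac2 : jacobiSym 6 7 = -1 := by norm_num
  refine ⟨7, rfl, by norm_num, by norm_num, ?_, ?_⟩
  · rintro ⟨-, -, h⟩
    exact not_congMod (by norm_num) (by decide +kernel) (h (by norm_num))
  · rintro ⟨-, -, h⟩
    have h1 := h (by norm_num)
    rw [jac2] at h1
    exact not_congMod (by norm_num) (by decide +kernel) h1

end Pool.Agent.Results.MP_f96d9d_nt.SevenFails
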